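import Pool.Agent.Q269.GJ.StF

/-!
# Project GJ (helper269), job GJ-CST: a periodic sequence with vanishing twisted sums is constant
-/

set_option autoImplicit false
set_option linter.all false

open Finset

namespace Pool.Agent.Q26.GJ

open Pool.Agent.Q269.GR (F2 cf IsRt xi Fr S_XIR)

theorem cstA (Ω : Type) [Field Ω] [Algebra F2 Ω] [IsAlgClosed Ω] (h : S_XIR) :
    ∀ (e : ℕ), Odd e → ∀ s : ℕ → F2, (∀ c, s (c + e) = s c) →
    (∀ r : ℕ, 1 < r → r ∣ e → ∀ u : ℕ, Nat.Coprime u r →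
      ∑ c ∈ range e, ((xi r ^ u)⁻¹) ^ c * cf (s c) = 0) → ∀ c : ℕ, s c = s 0 := by
  intro e he s hper hs
  have he0 : 0 < e := he.pos
  have hΩ2 : (2 : Ω) = 0 := by
    have h1 : ((2 : F2) : F2) = 0 := by decide
    have h2 : algebraMap F2 Ω 2 = 0 := by rw [h1, map_zero]
    rwa [map_ofNat] at h2
  -- the sums at the nontrivial roots of unity vanish
  have hroot : ∀ ζ : Ω, ζ ^ e = 1 → ζ ≠ 1 → ∑ c ∈ range e, ζ ^ c * algebraMap F2 Ω (s c) = 0 := by
    intro ζ hζ hζ1
    have hdvd : orderOf ζ ∣ e := orderOf_dvd_of_pow_eq_one hζ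
    have hr0 : 0 < orderOf ζ := Nat.pos_of_dvd_of_pos hdvd he0
    have hr1 : orderOf ζ ≠ 1 := fun h1 => hζ1 (orderOf_eq_one_iff.1 h1)
    obtain ⟨r, hr⟩ : ∃ r, r = orderOf ζ := ⟨_, rfl⟩
    rw [← hr] at hdvd hr0 hr1
    have hr2 : 1 < r := by omega
    have hodd : Odd r := Odd.of_dvd_nat he hdvd
    have hX := h r hodd hr2
    let j : Fr r →ₐ[F2] Ω := IsAlgClosed.lift
    have hjx : orderOf (j (xi r)) = r := by
      have := orderOf_injective (j : Fr r →* Ω) j.injective (xi r)
      exact this.trans hX.ord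
    have hp : IsPrimitiveRoot (j (xi r)) r := by
      have := IsPrimitiveRoot.orderOf (j (xi r))
      rwa [hjx] at this
    have hpz : IsPrimitiveRoot ζ r := hr ▸ IsPrimitiveRoot.orderOf _
    have hpi : IsPrimitiveRoot ζ⁻¹ r := hpz.inv
    haveI : NeZero r := ⟨hr0.ne'⟩
    obtain ⟨u, -, hu, hue⟩ := (hp.isPrimitiveRoot_iff).1 hpi
    have h1 := hs r hr2 hdvd u hu
    have h2 := congrArg j h1
    rw [map_sum, map_zero] at h2
    rw [← h2]
    refine sum_congr rfl fun c _ => ?_
    rw [map_mul, map_pow, map_inv₀, map_pow, hue, inv_inv]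
    congr 1
    exact (j.commutes (s c)).symm
  -- a primitive e-th root of unity
  have hprim : ∃ ω : Ω, IsPrimitiveRoot ω e := by
    by_cases h1 : e = 1
    · exact ⟨1, h1 ▸ IsPrimitiveRoot.one⟩
    · have hX := h e he (by omega)
      let j : Fr e →ₐ[F2] Ω := IsAlgClosed.lift
      have hjx : orderOf (j (xi e)) = e := by
        have := orderOf_injective (j : Fr e →* Ω) j.injective (xi e)
        exact this.trans hX.ord
      refine ⟨j (xi e), ?_⟩
      have := IsPrimitiveRoot.orderOf (j (xi e))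
      rwa [hjx] at this
  obtain ⟨ω, hω⟩ := hprim
  have heo : (e : Ω) = 1 := by
    obtain ⟨t, rfl⟩ := he
    push_cast
    rw [hΩ2, zero_mul, zero_add]
  have hω0 : ω ≠ 0 := hω.ne_zero he0.ne'
  have hfix : ∀ c ∈ range e, algebraMap F2 Ω (s c) =
      ∑ c' ∈ range e, algebraMap F2 Ω (s c') := by
    intro c hc
    have hc' := mem_range.1 hc
    have e1 : ∑ i ∈ range e, (∑ c' ∈ range e, (ω ^ i) ^ c' * algebraMap F2 Ω (s c')) *
        ((ω ^ i) ^ c)⁻¹ = ∑ c' ∈ range e, algebraMap F2 Ω (s c') := by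
      rw [sum_eq_single 0]
      · simp
      · intro i hi hi0
        rw [hroot, zero_mul]
        · rw [← pow_mul, mul_comm, pow_mul, hω.pow_eq_one, one_pow]
        · intro h1
          have := hω.dvd_of_pow_eq_one _ h1
          have := Nat.le_of_dvd (Nat.pos_of_ne_zero hi0) this
          have := mem_range.1 hi
          omega
      · intro h1
        exact absurd (mem_range.2 he0) h1
    rw [← e1]
    simp_rw [sum_mul]
    rw [sum_comm, sum_eq_single c]
    · have : ∀ i ∈ range e, (ω ^ i) ^ c * algebraMap F2 Ω (s c) * ((ω ^ i) ^ c)⁻¹ =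
          algebraMap F2 Ω (s c) := by
        intro i _
        have : (ω ^ i) ^ c ≠ 0 := pow_ne_zero _ (pow_ne_zero _ hω0)
        field_simp
      rw [sum_congr rfl this, sum_const, card_range, nsmul_eq_mul, heo, one_mul]
    · intro c' hc1 hne
      have hc1' := mem_range.1 hc1
      -- geometric sum
      obtain ⟨ζ, hζ⟩ : ∃ ζ : Ω, ζ = ω ^ c' * (ω ^ c)⁻¹ := ⟨_, rfl⟩
      have hζe : ζ ^ e = 1 := by
        rw [hζ, mul_pow, inv_pow, ← pow_mul, ← pow_mul, mul_comm c' e, mul_comm c e, pow_mul,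
          pow_mul, hω.pow_eq_one, one_pow, one_pow, inv_one, mul_one]
      have hζ1 : ζ ≠ 1 := by
        intro h1
        rw [hζ, mul_inv_eq_one₀ (pow_ne_zero _ hω0)] at h1
        exact hne (hω.pow_inj hc1' hc' h1)
      have hgeo : ∑ i ∈ range e, ζ ^ i = 0 := by
        have h1 := geom_sum_mul ζ e
        rw [hζe, sub_self] at h1
        rcases mul_eq_zero.1 h1 with h2 | h2
        · exact h2
        · exact absurd (sub_eq_zero.1 h2) hζ1
      have : ∀ i ∈ range e, (ω ^ i) ^ c' * algebraMap F2 Ω (s c') * ((ω ^ i) ^ c)⁻¹ =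
          ζ ^ i * algebraMap F2 Ω (s c') := by
        intro i _
        rw [hζ, mul_pow, inv_pow, ← pow_mul, ← pow_mul, ← pow_mul, ← pow_mul, mul_comm c' i,
          mul_comm c i]
        ring
      rw [sum_congr rfl this, ← sum_mul, hgeo, zero_mul]
    · intro h1
      exact absurd hc h1
  have hinj : Function.Injective (algebraMap F2 Ω) := (algebraMap F2 Ω).injective
  have hlt : ∀ c, c < e → s c = s 0 := fun c hc => hinj (by
    rw [hfix c (mem_range.2 hc), hfix 0 (mem_range.2 he0)])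
  intro c
  induction c using Nat.strong_induction_on with
  | _ c ih =>
    by_cases hc : c < e
    · exact hlt c hc
    · have h1 := hper (c - e)
      rw [Nat.sub_add_cancel (by omega)] at h1
      rw [h1]
      exact ih (c - e) (by omega)

theorem cst (h : S_XIR) : ∀ (e : ℕ), Odd e → ∀ s : ℕ → F2, (∀ c, s (c + e) = s c) →
    (∀ r : ℕ, 1 < r → r ∣ e → ∀ u : ℕ, Nat.Coprime u r →
      ∑ c ∈ range e, ((xi r ^ u)⁻¹) ^ c * cf (s c) = 0) → ∀ c : ℕ, s c = s 0 :=
  cstA (AlgebraicClosure F2) h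

theorem t_CST (h : S_XIR) : Pool.Agent.Q269.GJ.S_CST := cst h

end Pool.Agent.Q26.GJ
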