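import Pool.Agent.Q269.GJ.StF

/-!
# Project GJ (helper269), job GJ-RAD: the radical of the form
-/

set_option autoImplicit false
set_option linter.all false

open Finset

namespace Pool.Agent.Q26.GJ

open Pool.Agent.Y164.HG

theorem key {W : Type} [AddCommGroup W] [Module F2 W] [Symp W] {ι τ : Type} [Fintype ι] [Fintype τ]
    (D : Dat W τ) (A : ι → ι → F2) (B : ι → τ → F2) (d : ι → F2) (w : V W ι τ) (x0 : W)
    (w' : V W ι τ) : FF D A B d w w' + om x0 (dg D d w') =
      ∑ i, om (E1 (A := A) D B d w x0 i) (w'.1 i) + ∑ s, E2 (ι := ι) D B w x0 s * w'.2 s := by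
  have a1 : ∀ i, om (E1 (A := A) D B d w x0 i) (w'.1 i) =
      ∑ j, A i j * (om (w.1 j) (w'.1 i) + om (w.1 i) (w'.1 i)) +
      ∑ s, B i s * (om (w.1 i) (D.t s) * om (D.t s) (w'.1 i) + w.2 s * om (D.t s) (w'.1 i)) +
      (d i * om (D.ks (w.1 i)) (w'.1 i) + d i * om x0 (w'.1 i)) := by
    intro i
    simp only [E1, om_add_left, om_sum_left, om_smul_left]
    rw [mul_add (d i)]
  have a2 : ∀ s, E2 (ι := ι) D B w x0 s * w'.2 s = D.sp s * (w.2 s * w'.2 s) +
      ∑ i, B i s * (w'.2 s * om (w.1 i) (D.t s)) +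
      ∑ s', D.G s s' * (w.2 s' * w'.2 s * om (D.t s') (D.t s)) +
      D.e s * w'.2 s * om x0 (D.t s) := by
    intro s
    simp only [E2, add_mul, sum_mul]
    congr 1
    · congr 1
      · congr 1
        · ring
        · refine sum_congr rfl fun i _ => ?_
          ring
      · refine sum_congr rfl fun i _ => ?_
        ring
    · ring
  have a3 : om x0 (dg D d w') = ∑ i, d i * om x0 (w'.1 i) + ∑ s, D.e s * w'.2 s * om x0 (D.t s) := by
    simp only [dg, om_add_right, om_sum_right, om_smul_right]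
  have a4 : ∑ i, ∑ s, B i s * (om (w.1 i) (D.t s) * om (w'.1 i) (D.t s) +
      w.2 s * om (D.t s) (w'.1 i) + w'.2 s * om (w.1 i) (D.t s)) =
      ∑ i, ∑ s, B i s * (om (w.1 i) (D.t s) * om (D.t s) (w'.1 i) + w.2 s * om (D.t s) (w'.1 i)) +
      ∑ s, ∑ i, B i s * (w'.2 s * om (w.1 i) (D.t s)) := by
    rw [sum_comm (s := (univ : Finset τ)) (t := (univ : Finset ι)), ← sum_add_distrib]
    refine sum_congr rfl fun i _ => ?_
    rw [← sum_add_distrib]
    refine sum_congr rfl fun s _ => ?_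
    rw [om_comm (w'.1 i) (D.t s)]; ring
  rw [a3]
  simp only [a1, a2, sum_add_distrib]
  rw [FF, a4]
  ring

/-- linear forms on a finite symplectic space -/
theorem repr_om {W : Type} [AddCommGroup W] [Module F2 W] [Finite W] [Symp W]
    (φ : W →ₗ[F2] F2) : ∃ x0 : W, ∀ y, φ y = om x0 y := by
  have : Module.Finite F2 W := Module.Finite.of_finite
  let T : W →ₗ[F2] Module.Dual F2 W := (AddMonoidHom.toZModLinearMap 2
    (⟨⟨fun x => AddMonoidHom.toZModLinearMap 2 (⟨⟨fun y => om x y, om_zero_right x⟩,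
        fun a b => om_add_right x a b⟩ : W →+ F2), by
          ext y; exact om_zero_left y⟩, fun a b => by
          ext y; exact om_add_left a b y⟩ : W →+ Module.Dual F2 W))
  have hT : ∀ x y, T x y = om x y := fun x y => rfl
  have hinj : Function.Injective T := by
    rw [injective_iff_map_eq_zero]
    intro x hx
    apply eq_zero_of_om
    intro y
    rw [← hT, hx]; rfl
  have hsur : Function.Surjective T :=
    (LinearMap.injective_iff_surjective_of_finrank_eq_finrank
      (Subspace.dual_finrank_eq).symm).1 hinj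
  obtain ⟨x0, hx0⟩ := hsur φ
  exact ⟨x0, fun y => by rw [← hx0, hT]⟩

theorem rad : ∀ (W : Type) [AddCommGroup W] [Module F2 W] [Finite W] [Symp W] (ι τ : Type)
    [Fintype ι] [Fintype τ] (D : Dat W τ) (A : ι → ι → F2) (B : ι → τ → F2) (d : ι → F2),
    (∀ i j, A i j = A j i) →
    ∀ w : V W ι τ, dg D d w = 0 → (∀ w' : V W ι τ, dg D d w' = 0 → FF D A B d w w' = 0) →
    ∃ x0 : W, (∀ i, E1 (A := A) D B d w x0 i = 0) ∧ ∀ s, E2 (ι := ι) D B w x0 s = 0 := by
  classical
  intro W _ _ _ _ ι τ _ _ D A B d hA w hw hF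
  have hdz : dg D d (0 : V W ι τ) = 0 := by
    have h := dg_add D d (0 : V W ι τ) 0
    rw [add_zero] at h
    have h2 := W_add_self (dg D d (0 : V W ι τ))
    rw [h2] at h
    exact h
  have hFz : FF D A B d w 0 = 0 := by
    have h := FF_add_right D B d hA w 0 0
    rw [add_zero, F2_add_self] at h
    exact h
  let dL : V W ι τ →ₗ[F2] W := AddMonoidHom.toZModLinearMap 2
    (⟨⟨fun v => dg D d v, hdz⟩, fun a b => dg_add D d a b⟩ : V W ι τ →+ W)
  let fL : V W ι τ →ₗ[F2] F2 := AddMonoidHom.toZModLinearMap 2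
    (⟨⟨fun v => FF D A B d w v, hFz⟩, fun a b => FF_add_right D B d hA w a b⟩ : V W ι τ →+ F2)
  have hdL : ∀ v, dL v = dg D d v := fun v => rfl
  have hfL : ∀ v, fL v = FF D A B d w v := fun v => rfl
  have hmem : fL ∈ (LinearMap.ker dL).dualAnnihilator := by
    rw [Submodule.mem_dualAnnihilator]
    intro v hv
    rw [hfL]
    exact hF v (by rw [← hdL]; exact hv)
  rw [← LinearMap.range_dualMap_eq_dualAnnihilator_ker] at hmem
  obtain ⟨φ, hφ⟩ := hmem
  obtain ⟨x0, hx0⟩ := repr_om φ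
  have hFd : ∀ w' : V W ι τ, FF D A B d w w' = om x0 (dg D d w') := by
    intro w'
    rw [← hfL, ← hφ, ← hx0, ← hdL]; rfl
  have hz : ∀ w' : V W ι τ, ∑ i, om (E1 (A := A) D B d w x0 i) (w'.1 i) +
      ∑ s, E2 (ι := ι) D B w x0 s * w'.2 s = 0 := by
    intro w'
    rw [← key, hFd, F2_add_self]
  refine ⟨x0, fun i => ?_, fun s => ?_⟩
  · apply eq_zero_of_om
    intro y
    have h := hz (Pi.single i y, 0)
    simp only [Pi.zero_apply, mul_zero, sum_const_zero, add_zero] at h
    rw [sum_eq_single i] at h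
    · rwa [Pi.single_eq_same] at h
    · intro j _ hj
      rw [Pi.single_eq_of_ne hj, om_zero_right]
    · intro h'
      exact absurd (mem_univ i) h'
  · have h := hz (0, Pi.single s 1)
    simp only [Pi.zero_apply, om_zero_right, sum_const_zero, zero_add] at h
    rw [sum_eq_single s] at h
    · rwa [Pi.single_eq_same, mul_one] at h
    · intro j _ hj
      rw [Pi.single_eq_of_ne hj, mul_zero]
    · intro h'
      exact absurd (mem_univ s) h'

theorem t_RAD : Pool.Agent.Q269.GJ.S_RAD := rad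

end Pool.Agent.Q26.GJ
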